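import Mathlib
import Pool.Agent.K6.H94.DL.Defs

/-!
# Topological K-theory and Hodge classes of the categories `D(A ^ m) ⊠ 𝒟`

`A` is a complex abelian variety, given by the Hodge operator of `H_1(A)` in a rational basis `B`, and
`𝒟` is an admissible subcategory of `D^perf(Z)`, `Z` a smooth proper complex variety.
-/

set_option autoImplicit false

namespace Pool.Agent.K6.H94.NC

open Matrix Pool.Agent.TH131.GHC Pool.Agent.K6.H94.DL

noncomputable section

variable {B : Type} [Fintype B] [DecidableEq B] {v : ℕ}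

/-- A rational matrix as a complex matrix. -/
def cq {A A' : Type} (P : Matrix A A' ℚ) : Matrix A A' ℂ := P.map (fun x : ℚ => (x : ℂ))

/-- `P` is the projector of the topological K-theory `V` of `Z` (by the Chern character, its rational
cohomology) defined by the projection functor onto the admissible subcategory `𝒟`: it is idempotent
and commutes with the Hodge operator. So `K^top(𝒟) ⊗ ℚ` is the image of `P`. -/
structure IsProjector (V : Coh v) (P : Matrix (Fin v) (Fin v) ℚ) : Prop where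
  idem : P * P = P
  hodge : cq P * V.z = V.z * cq P

/-- The Hochschild homology `HH_n(𝒟)` vanishes for `|n| > w`: the elements of `K^top(𝒟) ⊗ ℂ` are sums of
classes of types `(p, q)` with `|p - q| ≤ w`. -/
def Amplitude (V : Coh v) (P : Matrix (Fin v) (Fin v) ℚ) (w : ℕ) : Prop :=
  ∀ x : Fin v → ℂ, cq P *ᵥ x = x →
    x ∈ Submodule.span ℂ {y | ∃ k : ℤ, |k| ≤ w ∧ V.z *ᵥ y = (k : ℂ) • y}

/-- `γ` is a Hodge class of `K^top_0(D(A) ⊠ 𝒟) ⊗ ℚ`: a family of alternating forms `γ k` in `k` variables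
on `H_1(A, ℚ)` with values in `K^top(𝒟) ⊗ ℚ`, given by their values on the vectors of the basis, which
is killed by the Hodge operator (the multiplication by `p - q` on the classes of type `(p, q)`; `D` is
this operator on `H_1(A, ℂ)`). -/
structure IsHodge (D : Matrix B B ℂ) (V : Coh v) (P : Matrix (Fin v) (Fin v) ℚ) (γ : Cls B v ℚ) :
    Prop where
  alt : ∀ (k : ℕ) (π : Equiv.Perm (Fin k)) (J : Fin k → B) (c : Fin v),
    γ k (fun l => J (π l)) c = ((Equiv.Perm.sign π : ℤ) : ℚ) * γ k J c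
  proj : ∀ (k : ℕ) (J : Fin k → B), P *ᵥ γ k J = γ k J
  hodge : ∀ (k : ℕ) (J : Fin k → B) (c : Fin v),
    ∑ l, ∑ j, D j (J l) * (γ k (Function.update J l j) c : ℂ) +
      ∑ c', V.z c c' * (γ k J c' : ℂ) = 0

/-- The inverse image under the homomorphism `A ^ m → A ^ n` with integral matrix `M`. -/
def pull {m n : ℕ} (M : Matrix (Fin n) (Fin m) ℤ) (γ : Cls (Fin n × B) v ℚ) :
    Cls (Fin m × B) v ℚ := fun k J c =>
  ∑ τ : Fin k → Fin n, (∏ l, (M (τ l) (J l).1 : ℚ)) * γ k (fun l => (τ l, (J l).2)) c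

/-- The exterior product with the alternating form `β` of degree two. -/
def divMul (β : Matrix B B ℚ) (γ : Cls B v ℚ) : Cls B v ℚ
  | 0, _, _ => 0
  | 1, _, _ => 0
  | k + 2, J, c => ((2 * k.factorial : ℕ) : ℚ)⁻¹ * ∑ π : Equiv.Perm (Fin (k + 2)),
      ((Equiv.Perm.sign π : ℤ) : ℚ) * (β (J (π 0)) (J (π 1)) * γ k (fun l => J (π l.succ.succ)) c)

/-- `K m` is the span of the classes of the objects of `D(A ^ m) ⊠ 𝒟`. The functors `D(A ^ n) ⊠ 𝒟 → D(A ^ m) ⊠ 𝒟`
given by the homomorphisms `A ^ m → A ^ n` and the multiplication with line bundles on `A ^ m`, hence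
(since the powers `L ^ j` of the line bundle `L` have the Chern characters `exp (j c_1(L))`) with the
classes of divisors on `A ^ m`, preserve the classes of objects. -/
structure IsObjectClasses (D : Matrix B B ℂ)
    (K : ∀ m : ℕ, Submodule ℚ (Cls (Fin m × B) v ℚ)) : Prop where
  pull : ∀ {m n : ℕ} (M : Matrix (Fin n) (Fin m) ℤ), ∀ γ ∈ K n, pull M γ ∈ K m
  mul : ∀ {m : ℕ} (β : Matrix (Fin m × B) (Fin m × B) ℚ), β.transpose = -β →
    (pw m D).transpose * cq β + cq β * pw m D = 0 → ∀ γ ∈ K m, divMul β γ ∈ K m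

/-- The noncommutative Hodge conjecture for `D(A ^ m) ⊠ 𝒟`: all Hodge classes belong to the span `K m` of
the classes of objects. -/
def NCHodge (D : Matrix B B ℂ) (V : Coh v) (P : Matrix (Fin v) (Fin v) ℚ)
    (K : ∀ m : ℕ, Submodule ℚ (Cls (Fin m × B) v ℚ)) (m : ℕ) : Prop :=
  ∀ γ : Cls (Fin m × B) v ℚ, IsHodge (pw m D) V P γ → γ ∈ K m

end

end Pool.Agent.K6.H94.NC
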