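import Mathlib
import Pool.Agent.K6.H94.DL.ClsP
import Pool.Agent.K6.H94.NC.Defs

/-!
# The classes defined by tensors on copies
-/

set_option linter.unusedSectionVars false

namespace Pool.Agent.K6.H94.NC

open Matrix Equiv Pool.Agent.H204R3.SP Pool.Agent.W437.HC Pool.Agent.W437.HD Pool.Agent.W437.HP
  Pool.Agent.TH131.GHC Pool.Agent.K6.H94.DL

noncomputable section

variable {B : Type} [Fintype B] [DecidableEq B] {v k m n : ℕ}

/-- The tensor `t` on the copies `σ`. -/
def plc (σ : Fin k → Fin m) (t : (Fin k → B) × Fin v → ℚ) : (Fin k → Fin m × B) × Fin v → ℚ :=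
  fun p => if (fun l => (p.1 l).1) = σ then t (fun l => (p.1 l).2, p.2) else 0

/-- The class of the tensor `t` on the copies `σ`. -/
def cl (σ : Fin k → Fin m) (t : (Fin k → B) × Fin v → ℚ) : Cls (Fin m × B) v ℚ :=
  fun k' J c => if h : k = k' then asy (plc σ t) (fun l => J (Fin.cast h l), c) else 0

theorem cl_self (σ : Fin k → Fin m) (t : (Fin k → B) × Fin v → ℚ) (J : Fin k → Fin m × B)
    (c : Fin v) : cl σ t k J c = asy (plc σ t) (J, c) := dif_pos rfl

theorem cl_ne (σ : Fin k → Fin m) (t : (Fin k → B) × Fin v → ℚ) {k' : ℕ} (h : k ≠ k')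
    (J : Fin k' → Fin m × B) (c : Fin v) : cl σ t k' J c = 0 := dif_neg h

theorem cl_eq (σ : Fin k → Fin m) (t : (Fin k → B) × Fin v → ℚ) (J : Fin k → Fin m × B)
    (c : Fin v) : cl σ t k J c = ∑ π : Perm (Fin k), ((Perm.sign π : ℤ) : ℚ) *
      (if (fun l => (J (π l)).1) = σ then t (fun l => (J (π l)).2, c) else 0) := by
  rw [cl_self, asy_apply]
  rfl

theorem cls_ext {γ γ' : Cls (Fin m × B) v ℚ} (k : ℕ) (h1 : ∀ J c, γ k J c = γ' k J c)
    (h2 : ∀ k', k ≠ k' → ∀ J c, γ k' J c = γ' k' J c) : γ = γ' := by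
  funext k' J c
  by_cases h : k = k'
  · subst h
    exact h1 J c
  · exact h2 k' h J c

theorem cl_add (σ : Fin k → Fin m) (s t : (Fin k → B) × Fin v → ℚ) :
    cl σ (s + t) = cl σ s + cl σ t := by
  refine cls_ext k (fun J c => ?_) (fun k' h J c => ?_)
  · change _ = cl σ s k J c + cl σ t k J c
    rw [cl_eq, cl_eq, cl_eq, ← Finset.sum_add_distrib]
    refine Finset.sum_congr rfl fun π _ => ?_
    split_ifs
    · rw [Pi.add_apply]
      ring
    · ring
  · change _ = cl σ s k' J c + cl σ t k' J c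
    rw [cl_ne _ _ h, cl_ne _ _ h, cl_ne _ _ h, add_zero]

theorem cl_smul (σ : Fin k → Fin m) (q : ℚ) (t : (Fin k → B) × Fin v → ℚ) :
    cl σ (q • t) = q • cl σ t := by
  refine cls_ext k (fun J c => ?_) (fun k' h J c => ?_)
  · change _ = q * cl σ t k J c
    rw [cl_eq, cl_eq, Finset.mul_sum]
    refine Finset.sum_congr rfl fun π _ => ?_
    split_ifs
    · rw [Pi.smul_apply, smul_eq_mul]
      ring
    · ring
  · change _ = q * cl σ t k' J c
    rw [cl_ne _ _ h, cl_ne _ _ h, mul_zero]

theorem cl_zero (σ : Fin k → Fin m) : cl σ (0 : (Fin k → B) × Fin v → ℚ) = 0 := by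
  have h := cl_smul σ (0 : ℚ) (0 : (Fin k → B) × Fin v → ℚ)
  rwa [zero_smul, zero_smul] at h

/-- Permutation of the variables. -/
theorem cl_perm (π : Perm (Fin k)) (σ : Fin k → Fin m) (s : (Fin k → B) × Fin v → ℚ) :
    cl (fun l => σ (π l)) (fun p => s (fun l => p.1 (π.symm l), p.2)) =
      ((Perm.sign π : ℤ) : ℚ) • cl σ s := by
  refine cls_ext k (fun J c => ?_) (fun k' h J c => ?_)
  · change _ = ((Perm.sign π : ℤ) : ℚ) * cl σ s k J c
    rw [cl_eq, cl_eq, Finset.mul_sum]
    refine Fintype.sum_equiv (Equiv.mulRight π.symm) _ _ fun ρ => ?_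
    rw [Equiv.coe_mulRight, map_mul, Perm.sign_symm]
    have h1 : ((fun l => (J (ρ l)).1) = fun l => σ (π l)) ↔
        (fun l => (J ((ρ * π.symm) l)).1) = σ := by
      constructor
      · intro h
        funext l
        have h2 := congrFun h (π.symm l)
        simp only [Equiv.apply_symm_apply] at h2
        exact h2
      · intro h
        funext l
        have h2 := congrFun h (π l)
        simp only [Perm.mul_apply, Equiv.symm_apply_apply] at h2
        exact h2
    have h3 : ((Perm.sign π : ℤ) : ℚ) * ((Perm.sign π : ℤ) : ℚ) = 1 := by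
      rcases Int.units_eq_one_or (Perm.sign π) with h | h <;> rw [h] <;> norm_num
    by_cases h4 : (fun l => (J (ρ l)).1) = fun l => σ (π l)
    · rw [if_pos h4, if_pos (h1.1 h4)]
      obtain ⟨X, hX⟩ : ∃ X : ℚ, X = s (fun l => (J (ρ (π.symm l))).2, c) := ⟨_, rfl⟩
      change ((Perm.sign ρ : ℤ) : ℚ) * s (fun l => (J (ρ (π.symm l))).2, c) =
        ((Perm.sign π : ℤ) : ℚ) * ((((Perm.sign ρ * Perm.sign π : ℤˣ) : ℤ) : ℚ) *
          s (fun l => (J (ρ (π.symm l))).2, c))
      rw [← hX]
      push_cast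
      linear_combination (-((Perm.sign ρ : ℤ) : ℚ) * X) * h3
    · rw [if_neg h4, if_neg (fun h => h4 (h1.2 h))]
      ring
  · change _ = ((Perm.sign π : ℤ) : ℚ) * cl σ s k' J c
    rw [cl_ne _ _ h, cl_ne _ _ h, mul_zero]

/-- Inverse images. -/
theorem pull_cl (M : Matrix (Fin n) (Fin m) ℤ) (τ : Fin k → Fin n) (σ : Fin k → Fin m)
    (hM : ∀ l j, M (τ l) j = if j = σ l then 1 else 0) (t : (Fin k → B) × Fin v → ℚ) :
    pull M (cl τ t) = cl σ t := by
  refine cls_ext k (fun J c => ?_) (fun k' h J c => ?_)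
  · unfold pull
    simp only [cl_eq, Finset.mul_sum]
    rw [Finset.sum_comm]
    refine Finset.sum_congr rfl fun π _ => ?_
    rw [Finset.sum_eq_single (fun l => τ (π.symm l))]
    · have h1 : (fun l => τ (π.symm (π l))) = τ := by
        funext l
        rw [Equiv.symm_apply_apply]
      rw [if_pos h1]
      have h2 : (∏ l, (M (τ (π.symm l)) (J l).1 : ℚ)) =
          if (fun l => (J (π l)).1) = σ then 1 else 0 := by
        rw [← Equiv.prod_comp π]
        simp only [Equiv.symm_apply_apply, hM]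
        split_ifs with h3
        · refine Finset.prod_eq_one fun l _ => ?_
          rw [if_pos (congrFun h3 l), Int.cast_one]
        · obtain ⟨l, hl⟩ : ∃ l, (J (π l)).1 ≠ σ l := by
            by_contra hcon
            push Not at hcon
            exact h3 (funext hcon)
          refine Finset.prod_eq_zero (Finset.mem_univ l) ?_
          rw [if_neg hl, Int.cast_zero]
      rw [h2]
      split_ifs
      · ring
      · ring
    · intro τ' _ hτ'
      have h1 : ¬ (fun l => τ' (π l)) = τ := by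
        intro h
        apply hτ'
        funext l
        rw [← h]
        exact congrArg τ' (Equiv.apply_symm_apply π l).symm
      rw [if_neg h1]
      ring
    · intro h
      exact absurd (Finset.mem_univ _) h
  · rw [cl_ne _ _ h]
    refine Finset.sum_eq_zero fun τ' _ => ?_
    rw [cl_ne _ _ h, mul_zero]

/-- The divisor class on two copies defined by `β`. -/
def dv (i j : Fin m) (β : Matrix B B ℚ) : Matrix (Fin m × B) (Fin m × B) ℚ :=
  Matrix.of fun p q => (if p.1 = i ∧ q.1 = j then β p.2 q.2 else 0) -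
    (if p.1 = j ∧ q.1 = i then β q.2 p.2 else 0)

theorem dv_apply (i j : Fin m) (β : Matrix B B ℚ) (p q : Fin m × B) :
    dv i j β p q = (if p.1 = i ∧ q.1 = j then β p.2 q.2 else 0) -
    (if p.1 = j ∧ q.1 = i then β q.2 p.2 else 0) := rfl

theorem dv_transpose (i j : Fin m) (β : Matrix B B ℚ) : (dv i j β).transpose = -dv i j β := by
  ext p q
  rw [Matrix.transpose_apply, Matrix.neg_apply, dv_apply, dv_apply, neg_sub]
  congr 1
  · exact if_congr and_comm rfl rfl
  · exact if_congr and_comm rfl rfl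

theorem dv_hodge (i j : Fin m) {β : Matrix B B ℚ} {D : Matrix B B ℂ}
    (h : D.transpose * cq β + cq β * D = 0) :
    (pw m D).transpose * cq (dv i j β) + cq (dv i j β) * pw m D = 0 := by
  have hl : ∀ (M : Matrix (Fin m × B) (Fin m × B) ℂ) (p q : Fin m × B),
      ((pw m D).transpose * M) p q = ∑ b, D b p.2 * M (p.1, b) q := by
    intro M p q
    rw [Matrix.mul_apply, Fintype.sum_prod_type, Finset.sum_eq_single p.1]
    · refine Finset.sum_congr rfl fun b _ => ?_
      rw [Matrix.transpose_apply, pw_apply, if_pos rfl]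
    · intro s _ hs
      refine Finset.sum_eq_zero fun b _ => ?_
      rw [Matrix.transpose_apply, pw_apply, if_neg hs, zero_mul]
    · intro h
      exact absurd (Finset.mem_univ _) h
  have hr : ∀ (M : Matrix (Fin m × B) (Fin m × B) ℂ) (p q : Fin m × B),
      (M * pw m D) p q = ∑ b, M p (q.1, b) * D b q.2 := by
    intro M p q
    rw [Matrix.mul_apply, Fintype.sum_prod_type, Finset.sum_eq_single q.1]
    · refine Finset.sum_congr rfl fun b _ => ?_
      rw [pw_apply, if_pos rfl]
    · intro s _ hs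
      refine Finset.sum_eq_zero fun b _ => ?_
      rw [pw_apply, if_neg hs, mul_zero]
    · intro h
      exact absurd (Finset.mem_univ _) h
  have h0 : ∀ b b', ∑ x, D x b * (β x b' : ℂ) + ∑ x, (β b x : ℂ) * D x b' = 0 := by
    intro b b'
    have h1 := congrFun (congrFun h b) b'
    rw [Matrix.add_apply, Matrix.mul_apply, Matrix.mul_apply] at h1
    exact h1
  ext p q
  rw [Matrix.add_apply, hl, hr, Matrix.zero_apply]
  have hc : ∀ p q : Fin m × B, cq (dv i j β) p q =
      (if p.1 = i ∧ q.1 = j then (β p.2 q.2 : ℂ) else 0) -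
        (if p.1 = j ∧ q.1 = i then (β q.2 p.2 : ℂ) else 0) := by
    intro p q
    change ((dv i j β p q : ℚ) : ℂ) = _
    rw [dv_apply]
    split_ifs <;> push_cast <;> ring
  simp only [hc]
  have h1 := h0 p.2 q.2
  have h2 := h0 q.2 p.2
  by_cases hA : p.1 = i ∧ q.1 = j
  · by_cases hB : p.1 = j ∧ q.1 = i
    · simp only [if_pos hA, if_pos hB, mul_sub, sub_mul, Finset.sum_sub_distrib]
      have e1 : ∑ x, D x p.2 * (β q.2 x : ℂ) = ∑ x, (β q.2 x : ℂ) * D x p.2 :=
        Finset.sum_congr rfl fun _ _ => mul_comm _ _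
      have e2 : ∑ x, (β x p.2 : ℂ) * D x q.2 = ∑ x, D x q.2 * (β x p.2 : ℂ) :=
        Finset.sum_congr rfl fun _ _ => mul_comm _ _
      rw [e1, e2]
      linear_combination h1 - h2
    · simp only [if_pos hA, if_neg hB, sub_zero]
      exact h1
  · by_cases hB : p.1 = j ∧ q.1 = i
    · simp only [if_neg hA, if_pos hB, zero_sub, mul_neg, neg_mul, Finset.sum_neg_distrib]
      have e1 : ∑ x, D x p.2 * (β q.2 x : ℂ) = ∑ x, (β q.2 x : ℂ) * D x p.2 :=
        Finset.sum_congr rfl fun _ _ => mul_comm _ _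
      have e2 : ∑ x, (β x p.2 : ℂ) * D x q.2 = ∑ x, D x q.2 * (β x p.2 : ℂ) :=
        Finset.sum_congr rfl fun _ _ => mul_comm _ _
      rw [e1, e2]
      linear_combination -h2
    · simp only [if_neg hA, if_neg hB, sub_zero, mul_zero, zero_mul, Finset.sum_const_zero,
        add_zero]

end

end Pool.Agent.K6.H94.NC
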