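import Mathlib
import Pool.Agent.K6.H94.NC.Cl

/-!
# Products with divisor classes, and the decomposition of a class
-/

set_option linter.unusedSectionVars false

namespace Pool.Agent.K6.H94.NC

open Matrix Equiv Pool.Agent.H204R3.SP Pool.Agent.W437.HC Pool.Agent.W437.HD Pool.Agent.W437.HP
  Pool.Agent.TH131.GHC Pool.Agent.K6.H94.DL

noncomputable section

variable {B : Type} [Fintype B] [DecidableEq B] {v k m n : ℕ}

/-- A permutation of `Fin k` as a permutation of `Fin (k + 2)`. -/
def sh (ρ : Perm (Fin k)) : Perm (Fin (k + 2)) :=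
  Perm.decomposeFin.symm (0, Perm.decomposeFin.symm (0, ρ))

theorem sh_zero (ρ : Perm (Fin k)) : sh ρ 0 = 0 := Perm.decomposeFin_symm_apply_zero _ _

theorem sh_one (ρ : Perm (Fin k)) : sh ρ 1 = 1 := by
  have h : (1 : Fin (k + 2)) = Fin.succ 0 := rfl
  unfold sh
  rw [h, Perm.decomposeFin_symm_apply_succ, Perm.decomposeFin_symm_apply_zero, Equiv.swap_self]
  rfl

theorem sh_succ (ρ : Perm (Fin k)) (l : Fin k) : sh ρ l.succ.succ = (ρ l).succ.succ := by
  unfold sh
  rw [Perm.decomposeFin_symm_apply_succ, Perm.decomposeFin_symm_apply_succ, Equiv.swap_self,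
    Equiv.swap_self]
  rfl

theorem sh_sign (ρ : Perm (Fin k)) : Perm.sign (sh ρ) = Perm.sign ρ := by
  unfold sh
  rw [Perm.decomposeFin.symm_sign, Perm.decomposeFin.symm_sign]
  simp

theorem sq_sign {X : Type} [Fintype X] [DecidableEq X] (ρ : Perm X) :
    ((Perm.sign ρ : ℤ) : ℚ) * ((Perm.sign ρ : ℤ) : ℚ) = 1 := by
  rcases Int.units_eq_one_or (Perm.sign ρ) with h | h <;> rw [h] <;> norm_num

/-- The product with a divisor class. -/
theorem divMul_cl (i j : Fin m) (β : Matrix B B ℚ) (σ : Fin k → Fin m)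
    (t : (Fin k → B) × Fin v → ℚ) :
    divMul (dv i j β) (cl σ t) = cl (k := k + 2) (Fin.cons i (Fin.cons j σ))
      (fun p => β (p.1 0) (p.1 1) * t (fun l => p.1 l.succ.succ, p.2)) := by
  refine cls_ext (k + 2) (fun J c => ?_) (fun k' h J c => ?_)
  · change ((2 * k.factorial : ℕ) : ℚ)⁻¹ * ∑ π : Equiv.Perm (Fin (k + 2)),
      ((Equiv.Perm.sign π : ℤ) : ℚ) *
        (dv i j β (J (π 0)) (J (π 1)) * cl σ t k (fun l => J (π l.succ.succ)) c) = _
    -- the function of the permutation
    obtain ⟨G, hG⟩ : ∃ G : Perm (Fin (k + 2)) → ℚ, ∀ π, G π =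
        if (fun l : Fin k => (J (π l.succ.succ)).1) = σ then
          t (fun l => (J (π l.succ.succ)).2, c) else 0 := ⟨_, fun _ => rfl⟩
    obtain ⟨A, hA⟩ : ∃ A : Fin m × B → Fin m × B → ℚ, ∀ p q, A p q =
        if p.1 = i ∧ q.1 = j then β p.2 q.2 else 0 := ⟨_, fun _ _ => rfl⟩
    have hdv : ∀ p q, dv i j β p q = A p q - A q p := by
      intro p q
      rw [dv_apply, hA, hA]
      congr 1
      exact if_congr and_comm rfl rfl
    have h1 : ∑ π : Equiv.Perm (Fin (k + 2)), ((Equiv.Perm.sign π : ℤ) : ℚ) *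
        (dv i j β (J (π 0)) (J (π 1)) * cl σ t k (fun l => J (π l.succ.succ)) c) =
        (k.factorial : ℚ) * ∑ π : Equiv.Perm (Fin (k + 2)), ((Equiv.Perm.sign π : ℤ) : ℚ) *
          (dv i j β (J (π 0)) (J (π 1)) * G π) := by
      simp only [cl_eq, Finset.mul_sum]
      rw [Finset.sum_comm]
      have h2 : ∀ ρ : Perm (Fin k), (∑ π : Perm (Fin (k + 2)), ((Perm.sign π : ℤ) : ℚ) *
          (dv i j β (J (π 0)) (J (π 1)) * (((Perm.sign ρ : ℤ) : ℚ) *
            if (fun l => (J (π (ρ l).succ.succ)).1) = σ then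
              t (fun l => (J (π (ρ l).succ.succ)).2, c) else 0))) =
          ∑ π : Perm (Fin (k + 2)), ((Perm.sign π : ℤ) : ℚ) *
            (dv i j β (J (π 0)) (J (π 1)) * G π) := by
        intro ρ
        refine Fintype.sum_equiv (Equiv.mulRight (sh ρ)) _ _ fun π => ?_
        rw [Equiv.coe_mulRight, hG]
        have e0 : (π * sh ρ) 0 = π 0 := by rw [Perm.mul_apply, sh_zero]
        have e1 : (π * sh ρ) 1 = π 1 := by rw [Perm.mul_apply, sh_one]
        have e2 : ∀ l : Fin k, (π * sh ρ) l.succ.succ = π (ρ l).succ.succ := by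
          intro l
          rw [Perm.mul_apply, sh_succ]
        simp only [e0, e1, e2]
        rw [map_mul, sh_sign]
        push_cast
        ring
      rw [Finset.sum_congr rfl fun ρ _ => h2 ρ, Finset.sum_const, Finset.card_univ,
        Fintype.card_perm, Fintype.card_fin, nsmul_eq_mul, Finset.mul_sum]
    have h2 : ∑ π : Equiv.Perm (Fin (k + 2)), ((Equiv.Perm.sign π : ℤ) : ℚ) *
          (A (J (π 1)) (J (π 0)) * G π) =
        -∑ π : Equiv.Perm (Fin (k + 2)), ((Equiv.Perm.sign π : ℤ) : ℚ) *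
          (A (J (π 0)) (J (π 1)) * G π) := by
      obtain ⟨s, hs0, hs1, hs2, hs3⟩ : ∃ s : Perm (Fin (k + 2)), s 0 = 1 ∧ s 1 = 0 ∧
          (∀ l : Fin k, s l.succ.succ = l.succ.succ) ∧ Perm.sign s = -1 := by
        have h01 : (0 : Fin (k + 2)) ≠ 1 := by
          intro h
          have h1 : (1 : Fin (k + 2)) = Fin.succ 0 := rfl
          rw [h1] at h
          exact (Fin.succ_ne_zero _ h.symm).elim
        refine ⟨Equiv.swap 0 1, Equiv.swap_apply_left _ _, Equiv.swap_apply_right _ _,
          fun l => ?_, Perm.sign_swap h01⟩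
        refine Equiv.swap_apply_of_ne_of_ne (Fin.succ_ne_zero _) fun h => ?_
        have h1 : (1 : Fin (k + 2)) = Fin.succ 0 := rfl
        rw [h1] at h
        exact Fin.succ_ne_zero _ (Fin.succ_injective _ h)
      rw [← Finset.sum_neg_distrib]
      refine Fintype.sum_equiv (Equiv.mulRight s) _ _ fun π => ?_
      rw [Equiv.coe_mulRight, hG, hG]
      have e0 : (π * s) 0 = π 1 := by rw [Perm.mul_apply, hs0]
      have e1 : (π * s) 1 = π 0 := by rw [Perm.mul_apply, hs1]
      have e2 : ∀ l : Fin k, (π * s) l.succ.succ = π l.succ.succ := by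
        intro l
        rw [Perm.mul_apply, hs2]
      simp only [e0, e1, e2]
      rw [map_mul, hs3]
      push_cast
      ring
    have h3 : ∑ π : Equiv.Perm (Fin (k + 2)), ((Equiv.Perm.sign π : ℤ) : ℚ) *
          (dv i j β (J (π 0)) (J (π 1)) * G π) =
        2 * ∑ π : Equiv.Perm (Fin (k + 2)), ((Equiv.Perm.sign π : ℤ) : ℚ) *
          (A (J (π 0)) (J (π 1)) * G π) := by
      simp only [hdv, sub_mul, mul_sub, Finset.sum_sub_distrib]
      rw [h2]
      ring
    rw [h1, h3, cl_eq]
    have hk : ((k.factorial : ℕ) : ℚ) ≠ 0 := Nat.cast_ne_zero.2 (Nat.factorial_ne_zero k)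
    rw [← mul_assoc, ← mul_assoc]
    have h4 : ((2 * k.factorial : ℕ) : ℚ)⁻¹ * (k.factorial : ℚ) * 2 = 1 := by
      push_cast
      field_simp
    rw [h4, one_mul]
    refine Finset.sum_congr rfl fun π _ => ?_
    congr 1
    rw [hA, hG]
    have h5 : ((fun l => (J (π l)).1) = Fin.cons i (Fin.cons j σ)) ↔
        ((J (π 0)).1 = i ∧ (J (π 1)).1 = j) ∧ (fun l : Fin k => (J (π l.succ.succ)).1) = σ := by
      constructor
      · intro h
        refine ⟨⟨congrFun h 0, congrFun h 1⟩, ?_⟩
        funext l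
        exact congrFun h l.succ.succ
      · rintro ⟨⟨h0, h1⟩, h2⟩
        funext l
        refine Fin.cases ?_ (fun l => ?_) l
        · exact h0
        · refine Fin.cases ?_ (fun l => ?_) l
          · exact h1
          · exact congrFun h2 l
    by_cases h6 : (J (π 0)).1 = i ∧ (J (π 1)).1 = j
    · by_cases h7 : (fun l : Fin k => (J (π l.succ.succ)).1) = σ
      · rw [if_pos h6, if_pos h7, if_pos (h5.2 ⟨h6, h7⟩)]
      · rw [if_neg h7, if_neg fun h => h7 (h5.1 h).2, mul_zero]
    · rw [if_neg h6, if_neg fun h => h6 (h5.1 h).1, zero_mul]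
  · rw [cl_ne _ _ h]
    match k', h, J with
    | 0, _, _ => rfl
    | 1, _, _ => rfl
    | k' + 2, h, J =>
      change ((2 * k'.factorial : ℕ) : ℚ)⁻¹ * ∑ π : Equiv.Perm (Fin (k' + 2)),
        ((Equiv.Perm.sign π : ℤ) : ℚ) *
          (dv i j β (J (π 0)) (J (π 1)) * cl σ t k' (fun l => J (π l.succ.succ)) c) = 0
      have h1 : k ≠ k' := fun h' => h (by rw [h'])
      rw [Finset.sum_eq_zero, mul_zero]
      intro π _
      rw [cl_ne _ _ h1, mul_zero, mul_zero]

/-- Alternating forms in too many variables vanish. -/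
theorem alt_zero {γ : Cls (Fin m × B) v ℚ} (h : ∀ (k : ℕ) (π : Equiv.Perm (Fin k))
    (J : Fin k → Fin m × B) (c : Fin v),
    γ k (fun l => J (π l)) c = ((Equiv.Perm.sign π : ℤ) : ℚ) * γ k J c) {k : ℕ}
    (hk : Fintype.card (Fin m × B) < k) (J : Fin k → Fin m × B) (c : Fin v) : γ k J c = 0 := by
  obtain ⟨l, l', hne, hl⟩ := Fintype.exists_ne_map_eq_of_card_lt J (by
    rwa [Fintype.card_fin])
  have h1 := h k (Equiv.swap l l') J c
  have h2 : (fun x => J (Equiv.swap l l' x)) = J := by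
    funext x
    by_cases hx : x = l
    · rw [hx, Equiv.swap_apply_left, hl]
    · by_cases hx' : x = l'
      · rw [hx', Equiv.swap_apply_right, hl]
      · rw [Equiv.swap_apply_of_ne_of_ne hx hx']
  rw [h2, Perm.sign_swap hne] at h1
  push_cast at h1
  linarith

/-- The decomposition of a class. -/
theorem cls_decomp {γ : Cls (Fin m × B) v ℚ} (h : ∀ (k : ℕ) (π : Equiv.Perm (Fin k))
    (J : Fin k → Fin m × B) (c : Fin v),
    γ k (fun l => J (π l)) c = ((Equiv.Perm.sign π : ℤ) : ℚ) * γ k J c) :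
    γ = ∑ k ∈ Finset.range (Fintype.card (Fin m × B) + 1), ∑ σ : Fin k → Fin m,
      ((k.factorial : ℕ) : ℚ)⁻¹ • cl σ (fun p => γ k (fun l => (σ l, p.1 l)) p.2) := by
  funext k J c
  rw [Finset.sum_apply, Finset.sum_apply, Finset.sum_apply]
  simp only [Finset.sum_apply, Pi.smul_apply]
  by_cases hk : k ∈ Finset.range (Fintype.card (Fin m × B) + 1)
  · rw [Finset.sum_eq_single k]
    · simp only [cl_eq, smul_eq_mul]
      rw [← Finset.mul_sum, Finset.sum_comm]
      have h1 : ∀ π : Perm (Fin k), (∑ σ : Fin k → Fin m, ((Perm.sign π : ℤ) : ℚ) *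
          if (fun l => (J (π l)).1) = σ then γ k (fun l => (σ l, (J (π l)).2)) c else 0) =
          γ k J c := by
        intro π
        rw [Finset.sum_eq_single (fun l => (J (π l)).1)]
        · rw [if_pos rfl]
          have h2 : γ k (fun l => ((J (π l)).1, (J (π l)).2)) c =
            ((Equiv.Perm.sign π : ℤ) : ℚ) * γ k J c := h k π J c
          rw [h2, ← mul_assoc, sq_sign, one_mul]
        · intro σ _ hσ
          rw [if_neg (Ne.symm hσ), mul_zero]
        · intro h
          exact absurd (Finset.mem_univ _) h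
      rw [Finset.sum_congr rfl fun π _ => h1 π, Finset.sum_const, Finset.card_univ,
        Fintype.card_perm, Fintype.card_fin, nsmul_eq_mul, ← mul_assoc,
        inv_mul_cancel₀ (Nat.cast_ne_zero.2 (Nat.factorial_ne_zero k)), one_mul]
    · intro k' _ hk'
      refine Finset.sum_eq_zero fun σ _ => ?_
      rw [cl_ne _ _ hk', smul_zero]
    · intro h
      exact absurd hk h
  · rw [Finset.mem_range, not_lt] at hk
    rw [alt_zero h (by omega)]
    refine (Finset.sum_eq_zero fun k' hk' => Finset.sum_eq_zero fun σ _ => ?_).symm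
    have h1 : k' ≠ k := by
      intro h2
      rw [Finset.mem_range] at hk'
      omega
    rw [cl_ne _ _ h1, smul_zero]

end

end Pool.Agent.K6.H94.NC
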