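import Mathlib
import Pool.Agent.K6.H94.NC.Div

/-!
# The noncommutative Hodge conjecture for `D(A ^ m) ⊠ 𝒟`
-/

set_option linter.unusedSectionVars false

namespace Pool.Agent.K6.H94.NC

open Matrix Equiv Pool.Agent.H204R3.SP Pool.Agent.W437.HC Pool.Agent.W437.HD Pool.Agent.W437.HP
  Pool.Agent.TH131.GHC Pool.Agent.K6.H94.DL

noncomputable section

variable {B : Type} [Fintype B] [DecidableEq B] {v k m n : ℕ} {κ : Type} [Fintype κ]
  [DecidableEq κ] {D : Matrix B B ℂ} {V : Coh v} {P : Matrix (Fin v) (Fin v) ℚ}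

theorem cstX_opW (P : Matrix (Fin v) (Fin v) ℚ) (t : (κ → B) × Fin v → ℚ) :
    cstX (opW κ B P t) = opW κ B (cq P) (cstX t) := by
  funext p
  rw [opW_apply]
  change ((opW κ B P t p : ℚ) : ℂ) = _
  rw [opW_apply]
  push_cast
  rfl

theorem cq_mul (M N : Matrix (Fin v) (Fin v) ℚ) : cq (M * N) = cq M * cq N := by
  ext i j
  change (((M * N) i j : ℚ) : ℂ) = _
  rw [Matrix.mul_apply, Matrix.mul_apply]
  push_cast
  rfl

/-- The Hodge operator of `𝒟`, zero on the complement. -/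
def zP (V : Coh v) (P : Matrix (Fin v) (Fin v) ℚ) : Matrix (Fin v) (Fin v) ℂ := V.z * cq P

theorem HdgT_proj (hP : IsProjector V P) {t : (κ → B) × Fin v → ℚ} (ht : HdgT D (zP V P) t) :
    HdgT D V.z (opW κ B P t) := by
  unfold HdgT at ht ⊢
  have hi : cq P * cq P = cq P := by rw [← cq_mul, hP.idem]
  rw [cstX_opW]
  have h1 : opD κ (Fin v) D (opW κ B (cq P) (cstX t)) =
      opW κ B (cq P) (opD κ (Fin v) D (cstX t)) := fW_opW _ _ _
  have h2 : opW κ B V.z (opW κ B (cq P) (cstX t)) =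
      opW κ B (cq P) (opW κ B (zP V P) (cstX t)) := by
    rw [opW_mul, opW_mul]
    unfold zP
    rw [← Matrix.mul_assoc, hP.hodge, Matrix.mul_assoc, hi]
  rw [h1, h2, ← map_add, ht, map_zero]

theorem bdd_zP (hP : IsProjector V P) {w : ℕ} (hw : Amplitude V P w) : Bdd (zP V P) (w : ℤ) := by
  have hi : cq P * cq P = cq P := by rw [← cq_mul, hP.idem]
  intro x
  have hx : x = cq P *ᵥ x + (x - cq P *ᵥ x) := by abel
  rw [hx]
  refine Submodule.add_mem _ ?_ (Submodule.subset_span ⟨0, by simp, ?_⟩)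
  · have h1 : cq P *ᵥ (cq P *ᵥ x) = cq P *ᵥ x := by rw [Matrix.mulVec_mulVec, hi]
    have h2 := hw _ h1
    have h3 : cq P *ᵥ (cq P *ᵥ x) ∈
        Submodule.span ℂ {y | ∃ k : ℤ, |k| ≤ w ∧ zP V P *ᵥ y = (k : ℂ) • y} := by
      generalize cq P *ᵥ x = y at h2
      induction h2 using Submodule.span_induction with
      | mem y hy =>
        obtain ⟨k, hk, hy⟩ := hy
        refine Submodule.subset_span ⟨k, hk, ?_⟩
        unfold zP
        rw [Matrix.mulVec_mulVec, Matrix.mul_assoc, hi, ← hP.hodge, ← Matrix.mulVec_mulVec, hy,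
          Matrix.mulVec_smul]
      | zero =>
        rw [Matrix.mulVec_zero]
        exact Submodule.zero_mem _
      | add x y _ _ hx hy =>
        rw [Matrix.mulVec_add]
        exact Submodule.add_mem _ hx hy
      | smul r x _ hx =>
        rw [Matrix.mulVec_smul]
        exact Submodule.smul_mem _ _ hx
    rwa [h1] at h3
  · rw [Matrix.mulVec_sub]
    unfold zP
    rw [Matrix.mulVec_mulVec, Matrix.mul_assoc, hi, sub_self, Int.cast_zero, zero_smul]

/-- The tensor with values in `K^top(𝒟)`. -/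
def rP (P : Matrix (Fin v) (Fin v) ℚ) (e : Fin k ≃ κ) (t : (κ → B) × Fin v → ℚ) :
    (Fin k → B) × Fin v → ℚ := fun p => opW κ B P t (fun x => p.1 (e.symm x), p.2)

theorem rP_add (e : Fin k ≃ κ) (s t : (κ → B) × Fin v → ℚ) :
    rP P e (s + t) = rP P e s + rP P e t := by
  unfold rP
  rw [map_add]
  rfl

theorem rP_smul (e : Fin k ≃ κ) (q : ℚ) (t : (κ → B) × Fin v → ℚ) :
    rP P e (q • t) = q • rP P e t := by
  unfold rP
  rw [map_smul]
  rfl

theorem rP_zero (e : Fin k ≃ κ) : rP P e (0 : (κ → B) × Fin v → ℚ) = 0 := by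
  unfold rP
  rw [map_zero]
  rfl

/-- The tensors which give classes of objects. -/
def GN (P : Matrix (Fin v) (Fin v) ℚ) (K : ∀ m : ℕ, Submodule ℚ (Cls (Fin m × B) v ℚ))
    (κ : Type) [Fintype κ] [DecidableEq κ] : Submodule ℚ ((κ → B) × Fin v → ℚ) where
  carrier := {t | ∀ (k : ℕ) (e : Fin k ≃ κ) (m : ℕ) (σ : Fin k → Fin m), cl σ (rP P e t) ∈ K m}
  zero_mem' := by
    intro k e m σ
    rw [rP_zero, cl_zero]
    exact Submodule.zero_mem _
  add_mem' := by
    intro s t hs ht k e m σ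
    rw [rP_add, cl_add]
    exact Submodule.add_mem _ (hs k e m σ) (ht k e m σ)
  smul_mem' := by
    intro q t ht k e m σ
    rw [rP_smul, cl_smul]
    exact Submodule.smul_mem _ _ (ht k e m σ)

theorem mulVec_proj (hP : IsProjector V P) (t : (κ → B) × Fin v → ℚ) (I : κ → B) :
    P *ᵥ (fun c => opW κ B P t (I, c)) = fun c => opW κ B P t (I, c) := by
  have h1 : opW κ B P (opW κ B P t) = opW κ B P t := by rw [opW_mul, hP.idem]
  funext c
  exact congrFun h1 (I, c)

theorem HdgT_plc (σ : Fin k → Fin m) {t : (Fin k → B) × Fin v → ℚ} (ht : HdgT D V.z t) :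
    HdgT (pw m D) V.z (plc σ t) := by
  rw [HdgT_pw]
  intro τ
  by_cases h : τ = σ
  · have h1 : (fun p : (Fin k → B) × Fin v => plc σ t (fun l => (τ l, p.1 l), p.2)) = t := by
      funext p
      exact if_pos h
    rw [h1]
    exact ht
  · have h1 : (fun p : (Fin k → B) × Fin v => plc σ t (fun l => (τ l, p.1 l), p.2)) = 0 := by
      funext p
      exact if_neg h
    rw [h1]
    exact HdgT_zero

/-- The class of a Hodge tensor is a Hodge class. -/
theorem isHodge_cl (σ : Fin k → Fin m) {t : (Fin k → B) × Fin v → ℚ} (ht : HdgT D V.z t)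
    (hp : ∀ I : Fin k → B, P *ᵥ (fun c => t (I, c)) = fun c => t (I, c)) :
    IsHodge (pw m D) V P (cl σ t) := by
  refine ⟨fun k' π J c => ?_, fun k' J => ?_, fun k' J c => ?_⟩
  · by_cases h : k = k'
    · subst h
      rw [cl_self, cl_self]
      exact asy_perm _ π J c
    · rw [cl_ne _ _ h, cl_ne _ _ h, mul_zero]
  · by_cases h : k = k'
    · subst h
      have h1 : cl σ t k J = ∑ π : Perm (Fin k), ((Perm.sign π : ℤ) : ℚ) •
          (if (fun l => (J (π l)).1) = σ then (fun c => t (fun l => (J (π l)).2, c)) else 0) := by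
        funext c
        rw [cl_eq, Finset.sum_apply]
        refine Finset.sum_congr rfl fun π _ => ?_
        rw [Pi.smul_apply, smul_eq_mul]
        split_ifs <;> rfl
      rw [h1, Matrix.mulVec_sum]
      refine Finset.sum_congr rfl fun π _ => ?_
      rw [Matrix.mulVec_smul]
      split_ifs
      · rw [hp]
      · rw [Matrix.mulVec_zero]
    · have h1 : cl σ t k' J = 0 := by
        funext c
        exact cl_ne _ _ h J c
      rw [h1, Matrix.mulVec_zero]
  · by_cases h : k = k'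
    · subst h
      have h1 := HdgT_iff.1 (HdgT_asy (HdgT_plc σ ht)) J c
      have h2 : ∀ J c, cl σ t k J c = asy (plc σ t) (J, c) := fun J c => cl_self σ t J c
      simp only [h2]
      exact h1
    · simp only [cl_ne _ _ h]
      simp

/-- The base case. -/
theorem GN_base (hP : IsProjector V P) {K : ∀ m : ℕ, Submodule ℚ (Cls (Fin m × B) v ℚ)}
    (hK : IsObjectClasses D K) {w : ℕ} (hQ : NCHodge D V P K w)
    (hle : Fintype.card κ ≤ w) {t : (κ → B) × Fin v → ℚ} (ht : HdgT D (zP V P) t) :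
    t ∈ GN P K κ := by
  intro k e m σ
  have hk : k ≤ w := by
    have h1 := Fintype.card_congr e
    rw [Fintype.card_fin] at h1
    omega
  have hs : HdgT D V.z (rP P e t) := HdgT_reindex e (HdgT_proj hP ht)
  have hp : ∀ I : Fin k → B, P *ᵥ (fun c => rP P e t (I, c)) = fun c => rP P e t (I, c) :=
    fun I => mulVec_proj hP t (fun x => I (e.symm x))
  have h1 : cl (Fin.castLE hk) (rP P e t) ∈ K w := hQ _ (isHodge_cl (Fin.castLE hk) hs hp)
  obtain ⟨M, hM⟩ : ∃ M : Matrix (Fin w) (Fin m) ℤ,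
      ∀ (l : Fin k) (j : Fin m), M (Fin.castLE hk l) j = if j = σ l then 1 else 0 := by
    refine ⟨Matrix.of fun (i : Fin w) (j : Fin m) =>
      if ∃ l : Fin k, Fin.castLE hk l = i ∧ j = σ l then (1 : ℤ) else 0, fun l j => ?_⟩
    change (if ∃ l' : Fin k, Fin.castLE hk l' = Fin.castLE hk l ∧ j = σ l' then
      (1 : ℤ) else 0) = _
    refine if_congr ⟨?_, fun h => ⟨l, rfl, h⟩⟩ rfl rfl
    rintro ⟨l', h3, h4⟩
    rw [h4, Fin.castLE_injective hk h3]
  have h2 : pull M (cl (Fin.castLE hk) (rP P e t)) ∈ K m := hK.pull M _ h1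
  rw [pull_cl M (Fin.castLE hk) σ hM] at h2
  exact h2

theorem isH_iff (β : Matrix B B ℚ) : IsH D (bilc β) ↔
    D.transpose * cq β + cq β * D = 0 := by
  have h1 : cst ℂ (bilc β) = bilc (cq β) := by
    funext I
    rfl
  unfold IsH
  rw [h1]
  constructor
  · intro h
    ext i j
    have h2 := congrFun h ![i, j]
    rw [act_bilc] at h2
    exact h2
  · intro h
    funext I
    rw [act_bilc, h]
    rfl

/-- The multiplication with an invariant form. -/
theorem GN_mul {K : ∀ m : ℕ, Submodule ℚ (Cls (Fin m × B) v ℚ)}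
    (hK : IsObjectClasses D K) {a b : κ} (hab : a ≠ b) {β : Matrix B B ℚ}
    (hβ : IsH D (bilc β)) {t : ({l // l ≠ a ∧ l ≠ b} → B) × Fin v → ℚ}
    (ht : t ∈ GN P K {l // l ≠ a ∧ l ≠ b}) : fW (Fin v) (mulB a b β) t ∈ GN P K κ := by
  intro k e m σ
  have hc := card_two hab
  have hk := Fintype.card_congr e
  rw [Fintype.card_fin] at hk
  obtain ⟨k', rfl⟩ : ∃ k', k = k' + 2 := ⟨k - 2, by omega⟩
  obtain ⟨e''⟩ : Nonempty (Fin k' ≃ {l // l ≠ a ∧ l ≠ b}) :=
    ⟨(Fintype.equivFinOfCardEq (by omega)).symm⟩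
  let f : Fin (k' + 2) → κ := Fin.cons a (Fin.cons b fun l => (e'' l).1)
  have hsurj : Function.Surjective f := by
    intro x
    by_cases hxa : x = a
    · exact ⟨0, hxa.symm⟩
    by_cases hxb : x = b
    · exact ⟨1, hxb.symm⟩
    obtain ⟨y, hy⟩ := e''.surjective ⟨x, hxa, hxb⟩
    exact ⟨y.succ.succ, congrArg Subtype.val hy⟩
  let e' : Fin (k' + 2) ≃ κ := Equiv.ofBijective f
    ((Fintype.bijective_iff_surjective_and_card f).2 ⟨hsurj, by rw [Fintype.card_fin, hk]⟩)
  have he0 : e'.symm a = 0 := (Equiv.symm_apply_eq e').2 rfl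
  have he1 : e'.symm b = 1 := (Equiv.symm_apply_eq e').2 rfl
  have hes : ∀ x : {l // l ≠ a ∧ l ≠ b}, e'.symm x.1 = (e''.symm x).succ.succ := by
    intro x
    rw [Equiv.symm_apply_eq]
    change x.1 = (e'' (e''.symm x)).1
    rw [Equiv.apply_symm_apply]
  let π : Perm (Fin (k' + 2)) := e.trans e'.symm
  have hs : rP P e (fW (Fin v) (mulB a b β) t) =
      fun p => rP P e' (fW (Fin v) (mulB a b β) t) (fun l => p.1 (π.symm l), p.2) := by
    funext p
    change opW κ B P (fW (Fin v) (mulB a b β) t) (fun x => p.1 (e.symm x), p.2) =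
      opW κ B P (fW (Fin v) (mulB a b β) t) (fun x => p.1 (e.symm (e' (e'.symm x))), p.2)
    simp only [Equiv.apply_symm_apply]
  have hσ : σ = fun l => (fun l => σ (π.symm l)) (π l) := by
    funext l
    exact congrArg σ (Equiv.symm_apply_apply π l).symm
  have hr : rP P e' (fW (Fin v) (mulB a b β) t) =
      fun p => β (p.1 0) (p.1 1) * rP P e'' t (fun l => p.1 l.succ.succ, p.2) := by
    funext p
    unfold rP
    rw [← fW_opW]
    change mulB a b β (fun I => opW _ B P t (I, p.2)) (fun x => p.1 (e'.symm x)) = _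
    rw [mulB_apply]
    simp only [he0, he1, hes]
  have hcl : cl (fun l => σ (π.symm l)) (rP P e' (fW (Fin v) (mulB a b β) t)) ∈ K m := by
    have h1 : (fun l => σ (π.symm l)) = Fin.cons (σ (π.symm 0)) (Fin.cons (σ (π.symm 1))
        fun l : Fin k' => σ (π.symm l.succ.succ)) := by
      funext l
      refine Fin.cases rfl (fun l => ?_) l
      exact Fin.cases rfl (fun l => rfl) l
    rw [h1, hr, ← divMul_cl]
    exact hK.mul _ (dv_transpose _ _ _) (dv_hodge _ _ ((isH_iff β).1 hβ)) _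
      (ht k' e'' m fun l => σ (π.symm l.succ.succ))
  have h2 := cl_perm π (fun l => σ (π.symm l)) (rP P e' (fW (Fin v) (mulB a b β) t))
  have h3 : cl σ (rP P e (fW (Fin v) (mulB a b β) t)) =
      cl (fun l => (fun l => σ (π.symm l)) (π l))
        (fun p => rP P e' (fW (Fin v) (mulB a b β) t) (fun l => p.1 (π.symm l), p.2)) := by
    rw [← hσ, ← hs]
  rw [h3, h2]
  exact Submodule.smul_mem _ _ hcl

/-- **The noncommutative Hodge conjecture for `D(A ^ w) ⊠ 𝒟` implies the one for `D(A ^ m) ⊠ 𝒟`.** -/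
theorem main_nc (h : PolH D) (hcore : CoreP D)
    (hMS : ∀ (m : ℕ) (c : (Fin m × Fin 2 → B) → ℚ), IsH D c → c ∈ MS D m)
    (hP : IsProjector V P) {K : ∀ m : ℕ, Submodule ℚ (Cls (Fin m × B) v ℚ)}
    (hK : IsObjectClasses D K) {w : ℕ} (hw : Amplitude V P w) (hQ : NCHodge D V P K w) (m : ℕ) :
    NCHodge D V P K m := by
  intro γ hγ
  rw [cls_decomp hγ.alt]
  refine Submodule.sum_mem _ fun k _ => Submodule.sum_mem _ fun σ _ =>
    Submodule.smul_mem _ _ ?_
  -- the tensor
  obtain ⟨s, hs⟩ : ∃ s : (Fin k → B) × Fin v → ℚ,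
      s = fun p => γ k (fun l => (σ l, p.1 l)) p.2 := ⟨_, rfl⟩
  have hs1 : HdgT D V.z s := by
    have h1 : HdgT (pw m D) V.z (fun p : (Fin k → Fin m × B) × Fin v => γ k p.1 p.2) := by
      rw [HdgT_iff]
      exact hγ.hodge k
    rw [hs]
    exact HdgT_pw.1 h1 σ
  have hs2 : opW (Fin k) B P s = s := by
    funext p
    rw [opW_apply, hs]
    exact congrFun (hγ.proj k (fun l => (σ l, p.1 l))) p.2
  have hs3 : HdgT D (zP V P) s := by
    have h2 : opW (Fin k) B (zP V P) (cstX s) = opW (Fin k) B V.z (cstX s) := by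
      unfold zP
      rw [← opW_mul, ← cstX_opW, hs2]
    unfold HdgT at hs1 ⊢
    rw [h2]
    exact hs1
  have h1 : s ∈ GN P K (Fin k) := le_family (L := 0) h hcore hMS (bdd_zP hP hw)
    (fun κ _ _ => GN P K κ)
    (fun κ _ _ hle V' hV' t ht => GN_base hP hK hQ (by exact_mod_cast (by rwa [zero_add] at hle :
      (Fintype.card κ : ℤ) ≤ (w : ℤ))) (HdgT_of_HT hV' ht))
    (fun κ _ _ a b β hab hβ t ht => GN_mul hK hab hβ ht) _ (Fin k) rfl _ (HT_of_HdgT hs3)
    (Submodule.mem_span_singleton_self s)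
  have h2 := h1 k (Equiv.refl _) m σ
  have h3 : rP P (Equiv.refl (Fin k)) s = s := by
    unfold rP
    rw [hs2]
    rfl
  rw [h3] at h2
  rw [← hs]
  exact h2

end

end Pool.Agent.K6.H94.NC
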